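import Mathlib

/-!
# A dihedral Kimura Hadamard matrix of order 300 whose automorphism group has order divisible by 9

MP_db198d_co, Q1.  We disprove the statement: for every odd `k ≥ 3` and every dihedral Kimura
Hadamard matrix `H` of order `8k+4` one has `|Aut(H)| = 2^r 3^s k` with `r ≥ 4`, `s ∈ {0,1}`.
The counterexample has `k = 37`.
-/

open Matrix

namespace Pool.Agent.Results.MP_db198d_co.OrderNine

/-! ## Definitions -/

/-- A Hadamard matrix (rows and columns indexed by a finite type `ι`):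
entries `±1` and `H Hᵀ = |ι| I`. -/
def IsHadamardMatrix {ι : Type} [Fintype ι] [DecidableEq ι] (H : Matrix ι ι ℤ) : Prop :=
  (∀ i j, H i j = 1 ∨ H i j = -1) ∧ H * Hᵀ = (Fintype.card ι : ℤ) • (1 : Matrix ι ι ℤ)

/-- A signed permutation matrix: entries in `{0, 1, -1}` and exactly one nonzero entry in each
row and in each column. -/
def IsSignedPerm {ι : Type} (R : Matrix ι ι ℤ) : Prop :=
  (∀ i j, R i j = 0 ∨ R i j = 1 ∨ R i j = -1) ∧
    (∀ i, ∃! j, R i j ≠ 0) ∧ (∀ j, ∃! i, R i j ≠ 0)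

/-- `Aut(H) = {(R, S) : R, S signed permutation matrices, R H Sᵀ = H}`. -/
def autSet {ι : Type} [Fintype ι] (H : Matrix ι ι ℤ) : Set (Matrix ι ι ℤ × Matrix ι ι ℤ) :=
  {p | IsSignedPerm p.1 ∧ IsSignedPerm p.2 ∧ p.1 * H * p.2ᵀ = H}

/-- The matrix `M_T` of a subset `T` of the dihedral group of order `2k`:
the entry at `(u, v)` is `1` if `u⁻¹ v ∈ T` and `-1` otherwise. -/
def regMatrix {k : ℕ} (T : Finset (DihedralGroup k)) :
    Matrix (DihedralGroup k) (DihedralGroup k) ℤ :=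
  Matrix.of fun u v => if u⁻¹ * v ∈ T then 1 else -1

/-- The lower right block of the Kimura matrix, a `4 × 4` matrix of blocks. -/
def kimuraCore {k : ℕ} (A B C D : Matrix (DihedralGroup k) (DihedralGroup k) ℤ) :
    Matrix (Fin 4) (Fin 4) (Matrix (DihedralGroup k) (DihedralGroup k) ℤ) :=
  !![ A,  B,  C,  D;
     -B,  A,  D, -C;
     -C, -D,  A,  B;
      D, -C,  B, -A]

/-- The Kimura matrix of order `8k + 4` built from four subsets of the dihedral group of order
`2k`.  The first four rows (columns) are indexed by `Fin 4`, the others by pairs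
(block number, group element).  The parameter `e` is the sign of the first block of the last
block row: `e = 1` gives Kimura's matrix; `e = -1` is the sign printed in the problem file, for
which the matrix is never a Hadamard matrix (second part of `result`). -/
def kimura {k : ℕ} (e : ℤ) (T₁ T₂ T₃ T₄ : Finset (DihedralGroup k)) :
    Matrix (Fin 4 ⊕ Fin 4 × DihedralGroup k) (Fin 4 ⊕ Fin 4 × DihedralGroup k) ℤ :=
  Matrix.fromBlocks
    !![1,  1,  1,  1;
       1,  1, -1, -1;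
       1, -1,  1, -1;
       1, -1, -1,  1]
    (Matrix.of fun i q =>
      !![ 1,  1,  1,  1;
          1,  1, -1, -1;
          1, -1,  1, -1;
         -1,  1,  1, -1] i q.1)
    (Matrix.of fun p j =>
      !![1,  1,  1, -1;
         1,  1, -1,  1;
         1, -1,  1,  1;
         e, -1, -1, -1] p.1 j)
    (Matrix.of fun p q =>
      kimuraCore (regMatrix T₁) (regMatrix T₂) (regMatrix T₃) (regMatrix T₄) p.1 q.1 p.2 q.2)

/-! ## The four subsets, and the kernel computations -/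

/-- Bit `i` of `mR j` says whether `r i ∈ T_j`. -/
def mR : Fin 4 → ℕ := ![104604510584, 95772741083, 27148235449, 103589027331]
/-- Bit `i` of `mS j` says whether `sr i ∈ T_j`. -/
def mS : Fin 4 → ℕ := ![60209969122, 130366544540, 72991465306, 100380978362]

/-- Membership in the four subsets. -/
def inT (j : Fin 4) : DihedralGroup 37 → Bool
  | .r i => mR j / 2 ^ (ZMod.val i) % 2 == 1
  | .sr i => mS j / 2 ^ (ZMod.val i) % 2 == 1

/-- The four subsets. -/
def T0 (j : Fin 4) : Finset (DihedralGroup 37) :=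
  Finset.univ.filter fun z => inT j z = true

def idx : Fin 4 → Fin 4 → Fin 4 := ![![0,1,2,3],![1,0,3,2],![2,3,0,1],![3,2,1,0]]
def sgn : Fin 4 → Fin 4 → ℤ := ![![1,1,1,1],![-1,1,1,-1],![-1,-1,1,1],![1,-1,1,-1]]
def tl : Fin 4 → Fin 4 → ℤ := ![![1,1,1,1],![1,1,-1,-1],![1,-1,1,-1],![1,-1,-1,1]]
def tr : Fin 4 → Fin 4 → ℤ := ![![1,1,1,1],![1,1,-1,-1],![1,-1,1,-1],![-1,1,1,-1]]
def bl : Fin 4 → Fin 4 → ℤ := ![![1,1,1,-1],![1,1,-1,1],![1,-1,1,1],![1,-1,-1,-1]]

/-- A sum, written so that the kernel evaluates it fast. -/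
def cnt (n : ℕ) (f : ℕ → ℕ) : ℕ := Nat.rec 0 (fun i s => s + f i) n

theorem cnt_eq (n : ℕ) (f : ℕ → ℕ) : cnt n f = ∑ i : Fin n, f i := by
  rw [Fin.sum_univ_eq_sum_range f n]
  induction n with
  | zero => rfl
  | succ n ih => rw [Finset.sum_range_succ, ← ih]; rfl

/-- The disagreement bit. -/
def dis (a i b j : ℕ) : ℕ := (a / 2 ^ i + b / 2 ^ j) % 2

def cR (a : ℕ) (t u : Fin 4) : ℕ :=
  cnt 37 (fun i => dis (mR t) i (mR u) ((a + i) % 37) + dis (mS t) i (mS u) ((37 - a + i) % 37))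

def cS (a : ℕ) (t u : Fin 4) : ℕ :=
  cnt 37 (fun i => dis (mR t) i (mS u) ((a + i) % 37) + dis (mS t) i (mR u) ((37 - a + i) % 37))

theorem checkR : ∀ i j : Fin 4, ∀ a : Fin 37,
    (∑ c : Fin 4, sgn i c * sgn j c * (74 - 2 * (cR a.val (idx i c) (idx j c) : ℤ))) =
      if i = j then (if a = 0 then 296 else -4) else 0 := by
  decide +kernel

theorem checkS : ∀ i j : Fin 4, ∀ a : Fin 37,
    (∑ c : Fin 4, sgn i c * sgn j c * (74 - 2 * (cS a.val (idx i c) (idx j c) : ℤ))) =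
      if i = j then -4 else 0 := by
  decide +kernel

/-- The block permutation. -/
def piT : Equiv.Perm (Fin 4) where
  toFun := ![0, 2, 3, 1]
  invFun := ![0, 3, 1, 2]
  left_inv := by decide
  right_inv := by decide

def kap : Equiv.Perm (Fin 4) where
  toFun := ![2, 0, 1, 3]
  invFun := ![1, 2, 0, 3]
  left_inv := by decide
  right_inv := by decide

theorem check_phi : ∀ j : Fin 4, ∀ i : Fin 37,
    inT (piT j) (.r ((7 : Fin 37) * i)) = inT j (.r i) ∧
    inT (piT j) (.sr ((7 : Fin 37) * i)) = inT j (.sr i) := by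
  decide +kernel

/-- `±1` indicator. -/
def eps (j : Fin 4) (z : DihedralGroup 37) : ℤ := if inT j z = true then 1 else -1

theorem check_sum : ∀ j : Fin 4, (∑ i : Fin 37, eps j (.r i)) + ∑ i : Fin 37, eps j (.sr i) =
    if j = 0 then -2 else 0 := by
  decide +kernel

/-! ## Correlations -/

theorem sum_dihedral (f : DihedralGroup 37 → ℤ) :
    ∑ z, f z = (∑ i : Fin 37, f (.r i)) + ∑ i : Fin 37, f (.sr i) := by
  rw [Fintype.sum_equiv DihedralGroup.equivSum f
    (fun s => Sum.elim (fun i => f (.r i)) (fun i => f (.sr i)) s)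
    (by rintro (i | i) <;> rfl)]
  exact Fintype.sum_sum_type _

theorem eps_mul (a i b j : ℕ) :
    (if (a / 2 ^ i % 2 == 1) = true then (1 : ℤ) else -1) *
      (if (b / 2 ^ j % 2 == 1) = true then (1 : ℤ) else -1) = 1 - 2 * (dis a i b j : ℤ) := by
  unfold dis
  rcases Nat.mod_two_eq_zero_or_one (a / 2 ^ i) with h | h <;>
    rcases Nat.mod_two_eq_zero_or_one (b / 2 ^ j) with h' | h' <;>
    simp [h, h', Nat.add_mod]

theorem val_sub37 (i a : Fin 37) : (i - a : Fin 37).val = (37 - a.val + i.val) % 37 := by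
  exact Fin.val_sub i a

theorem corrR (a : Fin 37) (t u : Fin 4) :
    ∑ z, eps t z * eps u (.r a * z) = 74 - 2 * (cR a.val t u : ℤ) := by
  rw [sum_dihedral]
  have h1 : ∀ i : Fin 37, eps t (.r i) * eps u (DihedralGroup.r a * .r i) =
      1 - 2 * (dis (mR t) i.val (mR u) ((a.val + i.val) % 37) : ℤ) := by
    intro i
    rw [← eps_mul]
    rfl
  have h2 : ∀ i : Fin 37, eps t (.sr i) * eps u (DihedralGroup.r a * .sr i) =
      1 - 2 * (dis (mS t) i.val (mS u) ((37 - a.val + i.val) % 37) : ℤ) := by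
    intro i
    rw [← eps_mul]
    rfl
  rw [Finset.sum_congr rfl (fun i _ => h1 i), Finset.sum_congr rfl (fun i _ => h2 i)]
  rw [cR, cnt_eq]
  push_cast
  rw [Finset.sum_sub_distrib, Finset.sum_sub_distrib, ← Finset.mul_sum, ← Finset.mul_sum,
    Finset.sum_add_distrib]
  simp only [Finset.sum_const, Finset.card_univ, Fintype.card_fin, nsmul_eq_mul]
  push_cast
  ring

theorem corrS (a : Fin 37) (t u : Fin 4) :
    ∑ z, eps t z * eps u (.sr a * z) = 74 - 2 * (cS a.val t u : ℤ) := by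
  rw [sum_dihedral]
  have h1 : ∀ i : Fin 37, eps t (.r i) * eps u (DihedralGroup.sr a * .r i) =
      1 - 2 * (dis (mR t) i.val (mS u) ((a.val + i.val) % 37) : ℤ) := by
    intro i
    rw [← eps_mul]
    rfl
  have h2 : ∀ i : Fin 37, eps t (.sr i) * eps u (DihedralGroup.sr a * .sr i) =
      1 - 2 * (dis (mS t) i.val (mR u) ((37 - a.val + i.val) % 37) : ℤ) := by
    intro i
    rw [← eps_mul]
    rfl
  rw [Finset.sum_congr rfl (fun i _ => h1 i), Finset.sum_congr rfl (fun i _ => h2 i)]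
  rw [cS, cnt_eq]
  push_cast
  rw [Finset.sum_sub_distrib, Finset.sum_sub_distrib, ← Finset.mul_sum, ← Finset.mul_sum,
    Finset.sum_add_distrib]
  simp only [Finset.sum_const, Finset.card_univ, Fintype.card_fin, nsmul_eq_mul]
  push_cast
  ring

theorem rowsum (t : Fin 4) (u : DihedralGroup 37) :
    ∑ w, eps t (u⁻¹ * w) = if t = 0 then -2 else 0 := by
  rw [← check_sum t, ← sum_dihedral]
  exact Fintype.sum_equiv (Equiv.mulLeft u⁻¹) _ _ (fun w => rfl)

theorem corr (t s : Fin 4) (u v : DihedralGroup 37) :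
    ∑ w, eps t (u⁻¹ * w) * eps s (v⁻¹ * w) = ∑ z, eps t z * eps s (v⁻¹ * u * z) := by
  refine Fintype.sum_equiv (Equiv.mulLeft u⁻¹) _ _ (fun w => ?_)
  simp [mul_assoc]

theorem coreSum (i j : Fin 4) (g : DihedralGroup 37) :
    ∑ c : Fin 4, sgn i c * sgn j c * ∑ z, eps (idx i c) z * eps (idx j c) (g * z) =
      if i = j then (if g = 1 then 296 else -4) else 0 := by
  rcases g with a | a
  · have h := checkR i j a
    have h0 : (DihedralGroup.r a = 1) ↔ (a : Fin 37) = 0 := by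
      rw [DihedralGroup.one_def]
      exact ⟨fun h => DihedralGroup.r.inj h, fun h => congrArg _ h⟩
    simp only [h0]
    exact (Finset.sum_congr rfl (fun c _ =>
      congrArg (fun x => sgn i c * sgn j c * x) (corrR a (idx i c) (idx j c)))).trans h
  · have h := checkS i j a
    have h0 : ¬ (DihedralGroup.sr a = 1) := by
      rw [DihedralGroup.one_def]
      intro h; cases h
    simp only [h0, if_false]
    exact (Finset.sum_congr rfl (fun c _ =>
      congrArg (fun x => sgn i c * sgn j c * x) (corrS a (idx i c) (idx j c)))).trans h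

/-! ## The Kimura matrix is Hadamard -/

/-- The matrix. -/
abbrev HH : Matrix (Fin 4 ⊕ Fin 4 × DihedralGroup 37) (Fin 4 ⊕ Fin 4 × DihedralGroup 37) ℤ :=
  kimura 1 (T0 0) (T0 1) (T0 2) (T0 3)

theorem regMatrix_T0 (j : Fin 4) (u v : DihedralGroup 37) :
    regMatrix (T0 j) u v = eps j (u⁻¹ * v) := by
  simp [regMatrix, T0, eps]

theorem HH_ll (i j : Fin 4) : HH (.inl i) (.inl j) = tl i j := by
  fin_cases i <;> fin_cases j <;> rfl

theorem HH_lr (i j : Fin 4) (v : DihedralGroup 37) : HH (.inl i) (.inr (j, v)) = tr i j := by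
  fin_cases i <;> fin_cases j <;> rfl

theorem HH_rl (i j : Fin 4) (u : DihedralGroup 37) : HH (.inr (i, u)) (.inl j) = bl i j := by
  fin_cases i <;> fin_cases j <;> rfl

theorem HH_rr (i j : Fin 4) (u v : DihedralGroup 37) :
    HH (.inr (i, u)) (.inr (j, v)) = sgn i j * eps (idx i j) (u⁻¹ * v) := by
  rw [← regMatrix_T0]
  fin_cases i <;> fin_cases j <;>
    first
    | exact (one_mul _).symm
    | exact (neg_one_mul _).symm

theorem eps_pm (j : Fin 4) (z : DihedralGroup 37) : eps j z = 1 ∨ eps j z = -1 := by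
  unfold eps; split_ifs <;> simp

theorem pm_tl : ∀ i j, tl i j = 1 ∨ tl i j = -1 := by decide
theorem pm_tr : ∀ i j, tr i j = 1 ∨ tr i j = -1 := by decide
theorem pm_bl : ∀ i j, bl i j = 1 ∨ bl i j = -1 := by decide
theorem pm_sgn : ∀ i j, sgn i j = 1 ∨ sgn i j = -1 := by decide

theorem HH_pm (p q) : HH p q = 1 ∨ HH p q = -1 := by
  rcases p with i | ⟨i, u⟩ <;> rcases q with j | ⟨j, v⟩
  · rw [HH_ll]; exact pm_tl i j
  · rw [HH_lr]; exact pm_tr i j
  · rw [HH_rl]; exact pm_bl i j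
  · rw [HH_rr]
    rcases pm_sgn i j with h | h <;> rcases eps_pm (idx i j) (u⁻¹ * v) with h' | h' <;>
      simp [h, h']

theorem chk_tt : ∀ i j : Fin 4, ∑ c : Fin 4, tl i c * tl j c + 74 * ∑ c : Fin 4, tr i c * tr j c =
    if i = j then 300 else 0 := by decide
theorem chk_tb : ∀ i j : Fin 4, ∑ c : Fin 4, tl i c * bl j c +
    ∑ c : Fin 4, tr i c * (sgn j c * (if idx j c = 0 then -2 else 0)) = 0 := by decide
theorem chk_bb : ∀ i j : Fin 4, ∑ c : Fin 4, bl i c * bl j c = if i = j then 4 else 0 := by decide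

theorem card_dihedral : Fintype.card (DihedralGroup 37) = 74 := by
  rw [DihedralGroup.card]

theorem row_tt (i j : Fin 4) : ∑ q, HH (.inl i) q * HH (.inl j) q = if i = j then 300 else 0 := by
  rw [Fintype.sum_sum_type, Fintype.sum_prod_type]
  simp only [HH_ll, HH_lr]
  simp only [Finset.sum_const, Finset.card_univ, card_dihedral, nsmul_eq_mul]
  rw [← Finset.mul_sum, ← chk_tt i j]
  push_cast
  rfl

theorem row_tb (i j : Fin 4) (u : DihedralGroup 37) :
    ∑ q, HH (.inl i) q * HH (.inr (j, u)) q = 0 := by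
  rw [Fintype.sum_sum_type, Fintype.sum_prod_type]
  simp only [HH_ll, HH_lr, HH_rl, HH_rr]
  simp only [← Finset.mul_sum, rowsum]
  exact chk_tb i j

theorem row_bb (i j : Fin 4) (u v : DihedralGroup 37) :
    ∑ q, HH (.inr (i, u)) q * HH (.inr (j, v)) q = if i = j ∧ u = v then 300 else 0 := by
  rw [Fintype.sum_sum_type, Fintype.sum_prod_type]
  simp only [HH_rl, HH_rr]
  rw [chk_bb]
  have h : ∀ c : Fin 4, ∑ w, sgn i c * eps (idx i c) (u⁻¹ * w) * (sgn j c * eps (idx j c) (v⁻¹ * w))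
      = sgn i c * sgn j c * ∑ z, eps (idx i c) z * eps (idx j c) (v⁻¹ * u * z) := by
    intro c
    rw [← corr, Finset.mul_sum]
    exact Finset.sum_congr rfl (fun w _ => by ring)
  rw [Finset.sum_congr rfl (fun c _ => h c), coreSum]
  have h1 : (v⁻¹ * u = 1) ↔ u = v := by
    rw [inv_mul_eq_one]; exact eq_comm
  simp only [h1]
  by_cases hi : i = j <;> by_cases hu : u = v <;> simp [hi, hu]

theorem HH_hadamard : IsHadamardMatrix HH := by
  refine ⟨HH_pm, ?_⟩
  have hc : (Fintype.card (Fin 4 ⊕ Fin 4 × DihedralGroup 37) : ℤ) = 300 := by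
    simp [card_dihedral]
  rw [hc]
  ext p q
  rw [Matrix.mul_apply]
  simp only [Matrix.transpose_apply, Matrix.smul_apply, Matrix.one_apply, smul_eq_mul]
  rcases p with i | ⟨i, u⟩ <;> rcases q with j | ⟨j, v⟩
  · rw [row_tt]; by_cases h : i = j <;> simp [h]
  · rw [row_tb]; simp
  · have := row_tb j i u
    rw [Finset.sum_congr rfl (fun q _ => mul_comm _ _)] at this
    rw [this]; simp
  · rw [row_bb]
    by_cases h : i = j <;> by_cases h' : u = v <;> simp [h, h']

/-! ## Signed permutation matrices and the automorphism group -/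

section general

variable {ι : Type} [Fintype ι] [DecidableEq ι]

/-- Signed permutation matrices are exactly the integral orthogonal matrices. -/
theorem isSignedPerm_iff (R : Matrix ι ι ℤ) : IsSignedPerm R ↔ R * Rᵀ = 1 := by
  constructor
  · rintro ⟨h1, h2, h3⟩
    ext i i'
    rw [Matrix.mul_apply]
    simp only [Matrix.transpose_apply]
    obtain ⟨j, hj, hju⟩ := h2 i
    rw [Finset.sum_eq_single j]
    · by_cases h : i = i'
      · subst h
        rw [Matrix.one_apply_eq]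
        rcases h1 i j with h | h | h
        · exact absurd h hj
        · rw [h]; norm_num
        · rw [h]; norm_num
      · rw [Matrix.one_apply_ne h]
        have : R i' j = 0 := by
          by_contra hne
          exact h ((h3 j).unique hj hne)
        rw [this, mul_zero]
    · intro b _ hb
      have : R i b = 0 := by
        by_contra hne
        exact hb (hju b hne)
      rw [this, zero_mul]
    · intro h; exact absurd (Finset.mem_univ _) h
  · intro h
    have key : ∀ (Q : Matrix ι ι ℤ), Q * Qᵀ = 1 → ∀ i, ∃ j, (Q i j = 1 ∨ Q i j = -1) ∧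
        ∀ j', j' ≠ j → Q i j' = 0 := by
      intro Q hQ i
      have hs : ∑ j, Q i j * Q i j = 1 := by
        have := congrFun (congrFun hQ i) i
        rw [Matrix.mul_apply, Matrix.one_apply_eq] at this
        exact this
      have hne : ∃ j, Q i j ≠ 0 := by
        by_contra hall
        push Not at hall
        simp [hall] at hs
      obtain ⟨j, hj⟩ := hne
      have hpos : 1 ≤ Q i j * Q i j := by
        have := mul_self_pos.mpr hj
        omega
      have hrest : ∑ j' ∈ Finset.univ.erase j, Q i j' * Q i j' = 1 - Q i j * Q i j := by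
        have : Q i j * Q i j + ∑ j' ∈ Finset.univ.erase j, Q i j' * Q i j' =
            ∑ j', Q i j' * Q i j' :=
          Finset.add_sum_erase Finset.univ (fun j' => Q i j' * Q i j') (Finset.mem_univ j)
        linarith
      have hnn : 0 ≤ ∑ j' ∈ Finset.univ.erase j, Q i j' * Q i j' :=
        Finset.sum_nonneg (fun _ _ => mul_self_nonneg _)
      have h1 : Q i j * Q i j = 1 := by linarith
      refine ⟨j, ?_, ?_⟩
      · exact mul_self_eq_one_iff.mp h1
      · intro j' hj'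
        have h0 : ∑ j' ∈ Finset.univ.erase j, Q i j' * Q i j' = 0 := by rw [hrest, h1]; norm_num
        have := (Finset.sum_eq_zero_iff_of_nonneg (fun _ _ => mul_self_nonneg _)).mp h0 j'
          (Finset.mem_erase.mpr ⟨hj', Finset.mem_univ _⟩)
        exact mul_self_eq_zero.mp this
    have h' : Rᵀ * Rᵀᵀ = 1 := by
      rw [Matrix.transpose_transpose]
      exact mul_eq_one_comm.mp h
    refine ⟨?_, ?_, ?_⟩
    · intro i j
      obtain ⟨j0, hj0, hz⟩ := key R h i
      by_cases hj : j = j0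
      · subst hj; exact Or.inr hj0
      · exact Or.inl (hz j hj)
    · intro i
      obtain ⟨j0, hj0, hz⟩ := key R h i
      refine ⟨j0, ?_, ?_⟩
      · rcases hj0 with h | h <;> simp [h]
      · intro j hj
        by_contra hne
        exact hj (hz j hne)
    · intro j
      obtain ⟨i0, hi0, hz⟩ := key Rᵀ h' j
      refine ⟨i0, ?_, ?_⟩
      · simp only [Matrix.transpose_apply] at hi0
        rcases hi0 with h | h <;> simp [h]
      · intro i hi
        by_contra hne
        exact hi (hz i hne)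

theorem mem_autSet (H : Matrix ι ι ℤ) (p : Matrix ι ι ℤ × Matrix ι ι ℤ) :
    p ∈ autSet H ↔ p.1 * p.1ᵀ = 1 ∧ p.2 * p.2ᵀ = 1 ∧ p.1 * H * p.2ᵀ = H := by
  unfold autSet
  rw [Set.mem_ofPred_eq, isSignedPerm_iff, isSignedPerm_iff]

omit [DecidableEq ι] in
theorem autSet_finite (H : Matrix ι ι ℤ) : (autSet H).Finite := by
  have hf : {R : Matrix ι ι ℤ | ∀ i j, R i j = 0 ∨ R i j = 1 ∨ R i j = -1}.Finite := by
    have h0 : ({0, 1, -1} : Set ℤ).Finite := Set.toFinite _
    have h1 : (Set.univ.pi fun _ : ι => (Set.univ.pi fun _ : ι => ({0, 1, -1} : Set ℤ))).Finite :=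
      Set.Finite.pi fun _ => Set.Finite.pi fun _ => h0
    refine h1.subset ?_
    intro R hR
    simp only [Set.mem_univ_pi]
    intro i j
    exact hR i j
  refine (hf.prod hf).subset ?_
  rintro ⟨R, S⟩ ⟨h1, h2, _⟩
  exact ⟨h1.1, h2.1⟩

/-- `Aut(H)` as a group. -/
def autGroup (H : Matrix ι ι ℤ) : Subgroup ((Matrix ι ι ℤ)ˣ × (Matrix ι ι ℤ)ˣ) where
  carrier := {p | ((p.1 : Matrix ι ι ℤ), (p.2 : Matrix ι ι ℤ)) ∈ autSet H}
  one_mem' := by
    rw [Set.mem_ofPred_eq, mem_autSet]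
    simp
  mul_mem' := by
    intro a b ha hb
    rw [Set.mem_ofPred_eq, mem_autSet] at ha hb ⊢
    obtain ⟨a1, a2, a3⟩ := ha
    obtain ⟨b1, b2, b3⟩ := hb
    simp only [Prod.fst_mul, Prod.snd_mul, Units.val_mul, Matrix.transpose_mul] at *
    refine ⟨?_, ?_, ?_⟩
    · calc (a.1 : Matrix ι ι ℤ) * b.1 * ((b.1 : Matrix ι ι ℤ)ᵀ * (a.1 : Matrix ι ι ℤ)ᵀ)
          = a.1 * (b.1 * (b.1 : Matrix ι ι ℤ)ᵀ) * (a.1 : Matrix ι ι ℤ)ᵀ := by
            simp only [Matrix.mul_assoc]
        _ = 1 := by rw [b1, Matrix.mul_one, a1]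
    · calc (a.2 : Matrix ι ι ℤ) * b.2 * ((b.2 : Matrix ι ι ℤ)ᵀ * (a.2 : Matrix ι ι ℤ)ᵀ)
          = a.2 * (b.2 * (b.2 : Matrix ι ι ℤ)ᵀ) * (a.2 : Matrix ι ι ℤ)ᵀ := by
            simp only [Matrix.mul_assoc]
        _ = 1 := by rw [b2, Matrix.mul_one, a2]
    · calc (a.1 : Matrix ι ι ℤ) * b.1 * H * ((b.2 : Matrix ι ι ℤ)ᵀ * (a.2 : Matrix ι ι ℤ)ᵀ)
          = a.1 * (b.1 * H * (b.2 : Matrix ι ι ℤ)ᵀ) * (a.2 : Matrix ι ι ℤ)ᵀ := by
            simp only [Matrix.mul_assoc]
        _ = H := by rw [b3, a3]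
  inv_mem' := by
    intro a ha
    rw [Set.mem_ofPred_eq, mem_autSet] at ha ⊢
    obtain ⟨a1, a2, a3⟩ := ha
    simp only at a1 a2 a3
    have i1 : ((a⁻¹).1 : Matrix ι ι ℤ) = (a.1 : Matrix ι ι ℤ)ᵀ := by
      rw [Prod.fst_inv]
      exact Units.inv_eq_of_mul_eq_one_right a1
    have i2 : ((a⁻¹).2 : Matrix ι ι ℤ) = (a.2 : Matrix ι ι ℤ)ᵀ := by
      rw [Prod.snd_inv]
      exact Units.inv_eq_of_mul_eq_one_right a2
    simp only [i1, i2, Matrix.transpose_transpose]
    have c1 := mul_eq_one_comm.mp a1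
    have c2 := mul_eq_one_comm.mp a2
    refine ⟨c1, c2, ?_⟩
    calc (a.1 : Matrix ι ι ℤ)ᵀ * H * (a.2 : Matrix ι ι ℤ)
        = (a.1 : Matrix ι ι ℤ)ᵀ * (a.1 * H * (a.2 : Matrix ι ι ℤ)ᵀ) * a.2 := by rw [a3]
      _ = ((a.1 : Matrix ι ι ℤ)ᵀ * a.1) * H * ((a.2 : Matrix ι ι ℤ)ᵀ * a.2) := by
          simp only [Matrix.mul_assoc]
      _ = H := by rw [c1, c2, Matrix.one_mul, Matrix.mul_one]

/-- The set `Aut(H)` and the group `Aut(H)` are the same. -/
def autEquiv (H : Matrix ι ι ℤ) : autGroup H ≃ autSet H where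
  toFun p := ⟨((p.1.1 : Matrix ι ι ℤ), (p.1.2 : Matrix ι ι ℤ)), p.2⟩
  invFun q := ⟨(⟨q.1.1, q.1.1ᵀ, ((mem_autSet H q.1).mp q.2).1,
      mul_eq_one_comm.mp ((mem_autSet H q.1).mp q.2).1⟩,
    ⟨q.1.2, q.1.2ᵀ, ((mem_autSet H q.1).mp q.2).2.1,
      mul_eq_one_comm.mp ((mem_autSet H q.1).mp q.2).2.1⟩), q.2⟩
  left_inv p := by
    apply Subtype.ext
    apply Prod.ext
    · exact Units.ext rfl
    · exact Units.ext rfl
  right_inv q := rfl

theorem ncard_autSet (H : Matrix ι ι ℤ) : (autSet H).ncard = Nat.card (autGroup H) := by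
  rw [Nat.card_congr (autEquiv H)]
  rfl

/-- If `(R, S) ∈ Aut(H)` with `S^9 = 1`, `S^3 ≠ 1` and `H` is cancellable, then
`9 ∣ |Aut(H)|`. -/
theorem nine_dvd (H R S : Matrix ι ι ℤ) (hH : ∀ X : Matrix ι ι ℤ, X * H = H → X = 1)
    (hRS : (R, S) ∈ autSet H) (h9 : S ^ 9 = 1) (h3 : S ^ 3 ≠ 1) :
    9 ∣ (autSet H).ncard := by
  rw [ncard_autSet]
  set g : autGroup H := (autEquiv H).symm ⟨(R, S), hRS⟩ with hg
  have hg1 : ((g : (Matrix ι ι ℤ)ˣ × (Matrix ι ι ℤ)ˣ).1 : Matrix ι ι ℤ) = R := rfl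
  have hg2 : ((g : (Matrix ι ι ℤ)ˣ × (Matrix ι ι ℤ)ˣ).2 : Matrix ι ι ℤ) = S := rfl
  have hpow2 : ∀ n : ℕ, (((g ^ n : autGroup H) : (Matrix ι ι ℤ)ˣ × (Matrix ι ι ℤ)ˣ).2 :
      Matrix ι ι ℤ) = S ^ n := by
    intro n
    rw [SubmonoidClass.coe_pow, Prod.pow_snd, Units.val_pow_eq_pow_val, hg2]
  have hord : orderOf g = 3 ^ (1 + 1) := by
    have : Fact (Nat.Prime 3) := ⟨Nat.prime_three⟩
    apply orderOf_eq_prime_pow
    · intro h
      apply h3
      have := hpow2 (3 ^ 1)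
      rw [h] at this
      simpa using this.symm
    · have hm := (g ^ (3 ^ (1 + 1)) : autGroup H).2
      have hm' := (mem_autSet H _).mp hm
      have e2 : (((g ^ (3 ^ (1 + 1)) : autGroup H) : (Matrix ι ι ℤ)ˣ × (Matrix ι ι ℤ)ˣ).2 :
          Matrix ι ι ℤ) = 1 := by
        rw [hpow2]; exact h9
      have e1 : (((g ^ (3 ^ (1 + 1)) : autGroup H) : (Matrix ι ι ℤ)ˣ × (Matrix ι ι ℤ)ˣ).1 :
          Matrix ι ι ℤ) = 1 := by
        apply hH
        have h3' := hm'.2.2
        simp only [e2, Matrix.transpose_one, Matrix.mul_one] at h3'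
        exact h3'
      apply Subtype.ext
      apply Prod.ext
      · exact Units.ext e1
      · exact Units.ext e2
  have := orderOf_dvd_natCard g
  rw [hord] at this
  simpa using this

end general

/-! ## The automorphism of order nine -/

/-- The automorphism `x ↦ x^7`, `y ↦ y` of the dihedral group of order 74. -/
def phi : DihedralGroup 37 ≃* DihedralGroup 37 where
  toFun := fun z => match z with
    | .r i => .r (7 * i)
    | .sr i => .sr (7 * i)
  invFun := fun z => match z with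
    | .r i => .r (16 * i)
    | .sr i => .sr (16 * i)
  left_inv := by
    have h : (16 * 7 : ZMod 37) = 1 := by decide
    rintro (i | i) <;> simp [← mul_assoc, h]
  right_inv := by
    have h : (7 * 16 : ZMod 37) = 1 := by decide
    rintro (i | i) <;> simp [← mul_assoc, h]
  map_mul' := by
    rintro (i | i) (j | j) <;> simp <;> ring

theorem eps_phi (j : Fin 4) (z : DihedralGroup 37) : eps (piT j) (phi z) = eps j z := by
  unfold eps
  have h : inT (piT j) (phi z) = inT j z := by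
    rcases z with i | i
    · exact (check_phi j i).1
    · exact (check_phi j i).2
  rw [h]

/-- Row permutation. -/
def sig : Equiv.Perm (Fin 4 ⊕ Fin 4 × DihedralGroup 37) :=
  Equiv.sumCongr piT (Equiv.prodCongr piT phi.toEquiv)

/-- Column permutation. -/
def tau : Equiv.Perm (Fin 4 ⊕ Fin 4 × DihedralGroup 37) :=
  Equiv.sumCongr kap (Equiv.prodCongr piT phi.toEquiv)

def ep : Fin 4 → ℤ := ![1, 1, -1, -1]

/-- Row signs. -/
def eta : Fin 4 ⊕ Fin 4 × DihedralGroup 37 → ℤ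
  | .inl i => ep i
  | .inr p => ep p.1

theorem a_ll : ∀ i j, ep i * tl (piT i) (kap j) = tl i j := by decide
theorem a_lr : ∀ i j, ep i * tr (piT i) (piT j) = tr i j := by decide
theorem a_rl : ∀ i j, ep i * bl (piT i) (kap j) = bl i j := by decide
theorem a_rr : ∀ i j, ep i * sgn (piT i) (piT j) = sgn i j := by decide
theorem a_idx : ∀ i j, idx (piT i) (piT j) = piT (idx i j) := by decide

theorem HH_inv (p q) : eta p * HH (sig p) (tau q) = HH p q := by
  rcases p with i | ⟨i, u⟩ <;> rcases q with j | ⟨j, v⟩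
  · show ep i * HH (.inl (piT i)) (.inl (kap j)) = _
    rw [HH_ll, HH_ll, a_ll]
  · show ep i * HH (.inl (piT i)) (.inr (piT j, phi v)) = _
    rw [HH_lr, HH_lr, a_lr]
  · show ep i * HH (.inr (piT i, phi u)) (.inl (kap j)) = _
    rw [HH_rl, HH_rl, a_rl]
  · show ep i * HH (.inr (piT i, phi u)) (.inr (piT j, phi v)) = _
    rw [HH_rr, HH_rr, ← mul_assoc, a_rr, a_idx, ← map_inv, ← map_mul, eps_phi]

/-- The signed permutation matrix acting on rows. -/
def R0 : Matrix (Fin 4 ⊕ Fin 4 × DihedralGroup 37) (Fin 4 ⊕ Fin 4 × DihedralGroup 37) ℤ :=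
  Matrix.of fun p q => if sig p = q then eta p else 0

/-- The permutation matrix acting on columns. -/
def S0 : Matrix (Fin 4 ⊕ Fin 4 × DihedralGroup 37) (Fin 4 ⊕ Fin 4 × DihedralGroup 37) ℤ :=
  tau.permMatrix ℤ

theorem S0_apply (p q) : S0 p q = if tau p = q then 1 else 0 := by
  simp [S0, Equiv.Perm.permMatrix, PEquiv.toMatrix_apply, Equiv.toPEquiv_apply, eq_comm]

theorem eta_sq (p) : eta p * eta p = 1 := by
  have h : ∀ i, ep i * ep i = 1 := by decide
  rcases p with i | ⟨i, u⟩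
  · exact h i
  · exact h i

theorem R0S0_mem : (R0, S0) ∈ autSet HH := by
  rw [mem_autSet]
  refine ⟨?_, ?_, ?_⟩
  · ext p q
    rw [Matrix.mul_apply]
    simp only [R0, Matrix.transpose_apply, Matrix.of_apply, ite_mul, zero_mul,
      Finset.sum_ite_eq, Finset.mem_univ, if_true]
    by_cases h : p = q
    · subst h
      rw [if_pos rfl, Matrix.one_apply_eq, eta_sq]
    · rw [if_neg (fun h' => h (sig.injective h').symm), mul_zero, Matrix.one_apply_ne h]
  · show S0 * S0ᵀ = 1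
    rw [S0, Matrix.transpose_permMatrix, ← Matrix.permMatrix_mul]
    simp
  · ext p q
    show (R0 * HH * S0ᵀ) p q = HH p q
    rw [Matrix.mul_apply]
    simp only [Matrix.transpose_apply, S0_apply, mul_ite, mul_one, mul_zero,
      Finset.sum_ite_eq, Finset.mem_univ, if_true]
    rw [Matrix.mul_apply]
    simp only [R0, Matrix.of_apply, ite_mul, zero_mul,
      Finset.sum_ite_eq, Finset.mem_univ, if_true]
    exact HH_inv p q

theorem S0_pow (n : ℕ) : S0 ^ n = (tau ^ n).permMatrix ℤ := by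
  induction n with
  | zero => simp
  | succ n ih => rw [pow_succ, ih, pow_succ', Matrix.permMatrix_mul, S0]

theorem tau_nine : tau ^ 9 = 1 := by
  ext p
  revert p
  decide +kernel

theorem tau_three : tau ^ 3 ≠ 1 := by
  intro h
  have := DFunLike.congr_fun h (.inr (0, .r 1))
  revert this
  decide +kernel

theorem HH_cancel (X : Matrix (Fin 4 ⊕ Fin 4 × DihedralGroup 37)
    (Fin 4 ⊕ Fin 4 × DihedralGroup 37) ℤ) (hX : X * HH = HH) : X = 1 := by
  have h := HH_hadamard.2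
  have hc : (Fintype.card (Fin 4 ⊕ Fin 4 × DihedralGroup 37) : ℤ) = 300 := by
    simp [card_dihedral]
  rw [hc] at h
  have h2 : X * HH * HHᵀ = HH * HHᵀ := by rw [hX]
  rw [Matrix.mul_assoc, h, Matrix.mul_smul, Matrix.mul_one] at h2
  ext i j
  have h3 := congrFun (congrFun h2 i) j
  simp only [Matrix.smul_apply, smul_eq_mul] at h3
  exact mul_left_cancel₀ (by norm_num) h3

/-- With the sign `-1` in the lower left corner the matrix is never Hadamard. -/
theorem printed_not_hadamard (k : ℕ) [NeZero k] (T₁ T₂ T₃ T₄ : Finset (DihedralGroup k)) :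
    ¬ IsHadamardMatrix (kimura (-1) T₁ T₂ T₃ T₄) := by
  rintro ⟨_, h⟩
  have h1 := congrFun (congrFun h (.inl 0)) (.inr (1, 1))
  have h2 := congrFun (congrFun h (.inl 1)) (.inr (3, 1))
  rw [Matrix.mul_apply, Fintype.sum_sum_type, Fintype.sum_prod_type, Fin.sum_univ_four,
    Fin.sum_univ_four] at h1 h2
  have e1 : ∀ v : DihedralGroup k,
      kimura (-1) T₁ T₂ T₃ T₄ (.inl 0) (.inr (0, v)) * (kimura (-1) T₁ T₂ T₃ T₄)ᵀ (.inr (0, v))
        (.inr (1, 1)) = -(regMatrix T₂ 1 v) := fun v => (one_mul _)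
  have e2 : ∀ v : DihedralGroup k,
      kimura (-1) T₁ T₂ T₃ T₄ (.inl 0) (.inr (1, v)) * (kimura (-1) T₁ T₂ T₃ T₄)ᵀ (.inr (1, v))
        (.inr (1, 1)) = regMatrix T₁ 1 v := fun v => (one_mul _)
  have e3 : ∀ v : DihedralGroup k,
      kimura (-1) T₁ T₂ T₃ T₄ (.inl 0) (.inr (2, v)) * (kimura (-1) T₁ T₂ T₃ T₄)ᵀ (.inr (2, v))
        (.inr (1, 1)) = regMatrix T₄ 1 v := fun v => (one_mul _)
  have e4 : ∀ v : DihedralGroup k,
      kimura (-1) T₁ T₂ T₃ T₄ (.inl 0) (.inr (3, v)) * (kimura (-1) T₁ T₂ T₃ T₄)ᵀ (.inr (3, v))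
        (.inr (1, 1)) = -(regMatrix T₃ 1 v) := fun v => (one_mul _)
  have f1 : ∀ v : DihedralGroup k,
      kimura (-1) T₁ T₂ T₃ T₄ (.inl 1) (.inr (0, v)) * (kimura (-1) T₁ T₂ T₃ T₄)ᵀ (.inr (0, v))
        (.inr (3, 1)) = regMatrix T₄ 1 v := fun v => (one_mul _)
  have f2 : ∀ v : DihedralGroup k,
      kimura (-1) T₁ T₂ T₃ T₄ (.inl 1) (.inr (1, v)) * (kimura (-1) T₁ T₂ T₃ T₄)ᵀ (.inr (1, v))
        (.inr (3, 1)) = -(regMatrix T₃ 1 v) := fun v => (one_mul _)
  have f3 : ∀ v : DihedralGroup k,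
      kimura (-1) T₁ T₂ T₃ T₄ (.inl 1) (.inr (2, v)) * (kimura (-1) T₁ T₂ T₃ T₄)ᵀ (.inr (2, v))
        (.inr (3, 1)) = -(regMatrix T₂ 1 v) := fun v => neg_one_mul _
  have f4 : ∀ v : DihedralGroup k,
      kimura (-1) T₁ T₂ T₃ T₄ (.inl 1) (.inr (3, v)) * (kimura (-1) T₁ T₂ T₃ T₄)ᵀ (.inr (3, v))
        (.inr (3, 1)) = regMatrix T₁ 1 v := fun v => (neg_one_mul _).trans (neg_neg _)
  have g1 : kimura (-1) T₁ T₂ T₃ T₄ (.inl 0) (.inl 0) * (kimura (-1) T₁ T₂ T₃ T₄)ᵀ (.inl 0)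
        (.inr (1, 1)) + kimura (-1) T₁ T₂ T₃ T₄ (.inl 0) (.inl 1) *
        (kimura (-1) T₁ T₂ T₃ T₄)ᵀ (.inl 1) (.inr (1, 1)) +
      kimura (-1) T₁ T₂ T₃ T₄ (.inl 0) (.inl 2) * (kimura (-1) T₁ T₂ T₃ T₄)ᵀ (.inl 2)
        (.inr (1, 1)) + kimura (-1) T₁ T₂ T₃ T₄ (.inl 0) (.inl 3) *
        (kimura (-1) T₁ T₂ T₃ T₄)ᵀ (.inl 3) (.inr (1, 1)) = 2 := rfl
  have g2 : kimura (-1) T₁ T₂ T₃ T₄ (.inl 1) (.inl 0) * (kimura (-1) T₁ T₂ T₃ T₄)ᵀ (.inl 0)
        (.inr (3, 1)) + kimura (-1) T₁ T₂ T₃ T₄ (.inl 1) (.inl 1) *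
        (kimura (-1) T₁ T₂ T₃ T₄)ᵀ (.inl 1) (.inr (3, 1)) +
      kimura (-1) T₁ T₂ T₃ T₄ (.inl 1) (.inl 2) * (kimura (-1) T₁ T₂ T₃ T₄)ᵀ (.inl 2)
        (.inr (3, 1)) + kimura (-1) T₁ T₂ T₃ T₄ (.inl 1) (.inl 3) *
        (kimura (-1) T₁ T₂ T₃ T₄)ᵀ (.inl 3) (.inr (3, 1)) = 0 := rfl
  rw [g1, Finset.sum_congr rfl (fun v _ => e1 v), Finset.sum_congr rfl (fun v _ => e2 v),
    Finset.sum_congr rfl (fun v _ => e3 v), Finset.sum_congr rfl (fun v _ => e4 v)] at h1
  rw [g2, Finset.sum_congr rfl (fun v _ => f1 v), Finset.sum_congr rfl (fun v _ => f2 v),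
    Finset.sum_congr rfl (fun v _ => f3 v), Finset.sum_congr rfl (fun v _ => f4 v)] at h2
  simp only [Finset.sum_neg_distrib, Matrix.smul_apply, smul_eq_mul,
    Matrix.one_apply_ne (show (Sum.inl 0 : Fin 4 ⊕ Fin 4 × DihedralGroup k) ≠ Sum.inr (1, 1) from
      Sum.inl_ne_inr),
    Matrix.one_apply_ne (show (Sum.inl 1 : Fin 4 ⊕ Fin 4 × DihedralGroup k) ≠ Sum.inr (3, 1) from
      Sum.inl_ne_inr), mul_zero] at h1 h2
  linarith

/-- **MP_db198d_co, Q1, negative answer.** There are four subsets of the dihedral group of order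
`74` whose Kimura matrix `H` is a Hadamard matrix of order `8·37 + 4 = 300` such that `|Aut(H)|`
is finite and divisible by `9`; in particular `|Aut(H)|` is not of the form `2^r 3^s k` with
`r ≥ 4`, `s ∈ {0, 1}` and `k = 37`.  (The second part records that with the sign `-1` in the
lower left corner, as printed in the problem file, the matrix is never Hadamard.) -/
theorem result :
    (∃ T₁ T₂ T₃ T₄ : Finset (DihedralGroup 37),
      IsHadamardMatrix (kimura 1 T₁ T₂ T₃ T₄) ∧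
      (autSet (kimura 1 T₁ T₂ T₃ T₄)).Finite ∧
      9 ∣ (autSet (kimura 1 T₁ T₂ T₃ T₄)).ncard ∧
      ¬ ∃ r s : ℕ, 4 ≤ r ∧ (s = 0 ∨ s = 1) ∧
        (autSet (kimura 1 T₁ T₂ T₃ T₄)).ncard = 2 ^ r * 3 ^ s * 37) ∧
    (∀ (k : ℕ) [NeZero k] (T₁ T₂ T₃ T₄ : Finset (DihedralGroup k)),
      ¬ IsHadamardMatrix (kimura (-1) T₁ T₂ T₃ T₄)) := by
  refine ⟨?_, fun k _ => printed_not_hadamard k⟩
  have h9 : 9 ∣ (autSet HH).ncard := by
    refine nine_dvd HH R0 S0 HH_cancel R0S0_mem ?_ ?_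
    · rw [S0_pow, tau_nine, Matrix.permMatrix_one]
    · rw [S0_pow]
      intro h
      apply tau_three
      ext p
      have h1 := congrFun (congrFun h p) ((tau ^ 3) p)
      by_contra hne
      rw [Matrix.one_apply_ne (show p ≠ (tau ^ 3) p from fun h' => hne h'.symm)] at h1
      simp [Equiv.Perm.permMatrix, PEquiv.toMatrix_apply, Equiv.toPEquiv_apply] at h1
  refine ⟨T0 0, T0 1, T0 2, T0 3, HH_hadamard, autSet_finite _, h9, ?_⟩
  rintro ⟨r, s, _, hs, hcard⟩
  rw [hcard] at h9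
  have hcop : Nat.Coprime 9 (2 ^ r * 37) := by
    apply Nat.Coprime.mul_right
    · exact Nat.Coprime.pow_right r (by norm_num)
    · norm_num
  have h9' : 9 ∣ 3 ^ s * (2 ^ r * 37) := by
    have : 2 ^ r * 3 ^ s * 37 = 3 ^ s * (2 ^ r * 37) := by ring
    rwa [this] at h9
  have := hcop.dvd_of_dvd_mul_right h9'
  rcases hs with rfl | rfl
  · norm_num at this
  · norm_num at this

end Pool.Agent.Results.MP_db198d_co.OrderNine
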